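import Pool.Agent.helper47.SC.Spec

/-!
# MP_0015b7, row sc:GRD

The gradient of the defining function `V` does not vanish on `V = 0`.
-/

set_option autoImplicit false

open scoped Topology ContDiff
open Set Filter Metric MeasureTheory

namespace Pool.Agent.SC

private lemma GRD_fst (s : ℕ → C3) (m : ℕ → ℕ) (x : ℂ) (w : C3) (hx : x ≠ 0)
    (hF : HasFDerivAt (VV s m) (0 : C4 →L[ℝ] ℝ) (x, w)) : False := by
  have hg : HasDerivAt (fun r : ℝ => ((r • x, w) : C4)) (x, 0) 1 := by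
    have a : HasDerivAt (fun r : ℝ => r • x) x 1 := by
      simpa using (hasDerivAt_id (1 : ℝ)).smul_const x
    exact a.prodMk (hasDerivAt_const (1 : ℝ) w)
  have hc : HasDerivAt (fun r : ℝ => VV s m ((r • x, w) : C4)) 0 1 := by
    have h0 : HasFDerivAt (VV s m) (0 : C4 →L[ℝ] ℝ) ((fun r : ℝ => ((r • x, w) : C4)) 1) := by
      simpa using hF
    have h1 := h0.comp_hasDerivAt (1 : ℝ) hg
    simpa [Function.comp_def] using h1
  have hn : 0 < ‖x‖ ^ 2 := by
    have := norm_pos_iff.2 hx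
    positivity
  have hp : HasDerivAt (fun r : ℝ => 1 / 2 * Real.log (1 + r ^ 2 * ‖x‖ ^ 2) + WW s m w +
      64 * nsq w - 3) (1 / 2 * ((2 * ‖x‖ ^ 2) / (1 + ‖x‖ ^ 2))) 1 := by
    have b1 : HasDerivAt (fun r : ℝ => 1 + r ^ 2 * ‖x‖ ^ 2) (2 * ‖x‖ ^ 2) 1 := by
      have := ((hasDerivAt_pow 2 (1 : ℝ)).mul_const (‖x‖ ^ 2)).const_add 1
      simpa using this
    have b2 : HasDerivAt (fun r : ℝ => Real.log (1 + r ^ 2 * ‖x‖ ^ 2))
        ((2 * ‖x‖ ^ 2) / (1 + ‖x‖ ^ 2)) 1 := by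
      have := b1.log (by positivity)
      simpa using this
    exact (((b2.const_mul (1 / 2)).add_const _).add_const _).sub_const _
  have heq : (fun r : ℝ => VV s m ((r • x, w) : C4)) = fun r : ℝ =>
      1 / 2 * Real.log (1 + r ^ 2 * ‖x‖ ^ 2) + WW s m w + 64 * nsq w - 3 := by
    funext r
    unfold VV
    simp only [norm_smul, mul_pow, Real.norm_eq_abs, sq_abs]
  rw [heq] at hc
  have h := hc.unique hp
  have h' : 0 < 1 / 2 * ((2 * ‖x‖ ^ 2) / (1 + ‖x‖ ^ 2)) := by positivity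
  linarith

theorem GRD (h1 : VSM_stmt) (h2 : WSM_stmt) (h3 : NSQ_stmt) (h4 : EPS_stmt) : GRD_stmt := by
  intro s D T m hD hm q hq hV hfd
  obtain ⟨hO, hsm, -⟩ := h1 s D T m hD hm
  obtain ⟨-, -, hW⟩ := h2 s D T m hD hm
  obtain ⟨-, -, -, n4, n5, n6, n7, -⟩ := h3
  obtain ⟨e1, -⟩ := h4 m hm
  obtain ⟨x, w⟩ := q
  have hdiff : DifferentiableAt ℝ (VV s m) (x, w) :=
    (hsm.contDiffAt (hO.mem_nhds hq)).differentiableAt (by simp)
  have hF : HasFDerivAt (VV s m) (0 : C4 →L[ℝ] ℝ) (x, w) := by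
    rw [← hfd]
    exact hdiff.hasFDerivAt
  by_cases hx : x = 0
  · subst hx
    have hw : nsq w < 1 / 4 ∧ w ∉ T := hq
    obtain ⟨l1, l2⟩ := hW w hw.1 hw.2
    have hWw : WW s m w ≤ 0 := by simpa using l2 0
    have hVw : VV s m ((0, w) : C4) = WW s m w + 64 * nsq w - 3 := by
      unfold VV
      simp
    rw [hVw] at hV
    have hnw : 3 / 64 ≤ nsq w := by linarith
    -- the ray
    have hg : HasDerivAt (fun r : ℝ => (((0 : ℂ), r • w) : C4)) (0, w) 1 := by
      have a : HasDerivAt (fun r : ℝ => r • w) w 1 := by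
        simpa using (hasDerivAt_id (1 : ℝ)).smul_const w
      exact (hasDerivAt_const (1 : ℝ) (0 : ℂ)).prodMk a
    have hc : HasDerivAt (fun r : ℝ => VV s m (((0 : ℂ), r • w) : C4)) 0 1 := by
      have h0 : HasFDerivAt (VV s m) (0 : C4 →L[ℝ] ℝ)
          ((fun r : ℝ => (((0 : ℂ), r • w) : C4)) 1) := by
        simpa using hF
      have h1 := h0.comp_hasDerivAt (1 : ℝ) hg
      simpa [Function.comp_def] using h1
    have ev1 : ∀ᶠ r : ℝ in 𝓝 1, ((0 : ℂ), r • w) ∈ OO T := by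
      have hcont : ContinuousAt (fun r : ℝ => (((0 : ℂ), r • w) : C4)) 1 := hg.continuousAt
      have hmem : OO T ∈ 𝓝 ((fun r : ℝ => (((0 : ℂ), r • w) : C4)) 1) := by
        apply hO.mem_nhds
        simpa using hq
      exact hcont hmem
    have ev2 : ∀ᶠ r : ℝ in 𝓝 1, ‖VV s m (((0 : ℂ), r • w) : C4) -
        VV s m (((0 : ℂ), (1 : ℝ) • w) : C4) - (r - 1) • (0 : ℝ)‖ ≤ 1 * ‖r - 1‖ :=
      (hasDerivAt_iff_isLittleO.1 hc).def one_pos
    obtain ⟨r, ⟨hr1, hr2⟩, hr3⟩ :=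
      (((ev1.and ev2).filter_mono (nhdsWithin_le_nhds (s := Ioi 1))).and
        (self_mem_nhdsWithin (s := Ioi (1 : ℝ)))).exists
    have hr : 1 < r := hr3
    have hrw : nsq (r • w) < 1 / 4 ∧ r • w ∉ T := hr1
    obtain ⟨l3, -⟩ := hW (r • w) hrw.1 hrw.2
    have hmono : WW s m w ≤ WW s m (r • w) := by
      refine le_of_tendsto_of_tendsto' l1 l3 fun k => ?_
      refine Finset.sum_le_sum fun i _ => ?_
      apply mul_le_mul_of_nonneg_left _ (by linarith [e1 i])
      have hsi : s i ∈ T := hD.mem i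
      have hsm' : nsq (s i) ≤ 1 / 64 := hD.small _ hsi
      apply Real.log_le_log
      · have hne : w - s i ≠ 0 := by
          intro h
          rw [sub_eq_zero] at h
          exact hw.2 (h ▸ hsi)
        have h0 := n6 (w - s i)
        rcases h0.lt_or_eq with h | h
        · exact h
        · exact absurd ((n5 _).1 h.symm) hne
      · exact n7 r w (s i) hr.le (by linarith)
    rw [one_smul, hVw, smul_zero, sub_zero] at hr2
    have hVr : VV s m (((0 : ℂ), r • w) : C4) = WW s m (r • w) + 64 * (r ^ 2 * nsq w) - 3 := by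
      unfold VV
      simp [n4]
    rw [hVr] at hr2
    have h5 := le_abs_self (WW s m (r • w) + 64 * (r ^ 2 * nsq w) - 3 - (WW s m w + 64 * nsq w - 3))
    rw [Real.norm_eq_abs, Real.norm_eq_abs, abs_of_pos (by linarith : 0 < r - 1)] at hr2
    have h6 : 6 * (r - 1) ≤ 64 * (r ^ 2 * nsq w) - 64 * nsq w := by
      have h7 : 0 ≤ (r ^ 2 - 1) * (nsq w - 3 / 64) := by
        apply mul_nonneg
        · nlinarith
        · linarith
      nlinarith [sq_nonneg (r - 1)]
    linarith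
  · exact GRD_fst s m x w hx hF

end Pool.Agent.SC
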