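import Pool.Agent.helper82.SC.SpecB

/-!
# sp: Cardy part, module CAW: continuity away from the arc `j` (white arm)
-/

namespace Pool.Agent.helper82.SC

open Relation Filter Topology

theorem AW_mono (U : Finset V) (E E' : Finset V → Prop) (h : ∀ s ⊆ U, E s → E' s) :
    prob U E ≤ prob U E' := by
  unfold prob
  apply div_le_div_of_nonneg_right _ (by positivity)
  have hfin : {s : Finset V | s ⊆ U ∧ E' s}.Finite := by
    apply (U.powerset.finite_toSet).subset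
    intro s hs
    exact Finset.mem_coe.mpr (Finset.mem_powerset.mpr hs.1)
  have hsub : {s : Finset V | s ⊆ U ∧ E s} ⊆ {s : Finset V | s ⊆ U ∧ E' s} :=
    fun s hs => ⟨hs.1, h s hs.1 hs.2⟩
  exact_mod_cast Set.ncard_le_ncard hsub hfin

theorem AW_adj {u v : V} (h : TAdj u v) : ‖ps u - ps v‖ ≤ 2 := by
  have hs : Real.sqrt 3 ≤ 2 := by
    rw [Real.sqrt_le_left (by norm_num)]
    norm_num
  have hs0 : 0 ≤ Real.sqrt 3 := Real.sqrt_nonneg 3
  refine (Complex.norm_le_abs_re_add_abs_im _).trans ?_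
  obtain ⟨i, j⟩ := u
  have key : ∀ a b : ℤ, |a| ≤ 1 → |b| ≤ 1 → |a + b| ≤ 1 →
      |((i : ℝ) + (j : ℝ) / 2) - (((i + a : ℤ) : ℝ) + ((j + b : ℤ) : ℝ) / 2)| +
        |Real.sqrt 3 / 2 * (j : ℝ) - Real.sqrt 3 / 2 * ((j + b : ℤ) : ℝ)| ≤ 2 := by
    intro a b ha hb hab
    have e1 : ((i : ℝ) + (j : ℝ) / 2) - (((i + a : ℤ) : ℝ) + ((j + b : ℤ) : ℝ) / 2) =
        -(((a : ℝ) + ((a + b : ℤ) : ℝ)) / 2) := by
      push_cast
      ring
    have e2 : Real.sqrt 3 / 2 * (j : ℝ) - Real.sqrt 3 / 2 * ((j + b : ℤ) : ℝ) =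
        -(Real.sqrt 3 / 2 * (b : ℝ)) := by
      push_cast
      ring
    have ha' : |(a : ℝ)| ≤ 1 := by exact_mod_cast ha
    have hb' : |(b : ℝ)| ≤ 1 := by exact_mod_cast hb
    have hab' : |((a + b : ℤ) : ℝ)| ≤ 1 := by exact_mod_cast hab
    rw [e1, e2, abs_neg, abs_neg, abs_div, abs_mul, abs_of_nonneg (by positivity : (0 : ℝ) ≤ √3 / 2)]
    have h1 : |(a : ℝ) + ((a + b : ℤ) : ℝ)| ≤ 2 := (abs_add_le _ _).trans (by linarith)
    have h2 : |(a : ℝ) + ((a + b : ℤ) : ℝ)| / |(2 : ℝ)| ≤ 1 := by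
      rw [abs_of_pos (by norm_num : (0 : ℝ) < 2)]
      linarith
    have h3 : √3 / 2 * |(b : ℝ)| ≤ 1 * 1 :=
      mul_le_mul (by linarith) hb' (abs_nonneg _) (by norm_num)
    linarith
  have hre : ∀ v : V, (ps (i, j) - ps v).re = ((i : ℝ) + (j : ℝ) / 2) - ((v.1 : ℝ) + (v.2 : ℝ) / 2) :=
    fun v => rfl
  have him : ∀ v : V, (ps (i, j) - ps v).im = Real.sqrt 3 / 2 * (j : ℝ) - Real.sqrt 3 / 2 * (v.2 : ℝ) :=
    fun v => rfl
  rw [hre, him]
  rcases h with h | h | h | h | h | h <;> subst h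
  · have h1 := key 1 0 (by norm_num) (by norm_num) (by norm_num)
    rw [add_zero] at h1
    exact h1
  · have h1 := key (-1) 0 (by norm_num) (by norm_num) (by norm_num)
    rw [add_zero] at h1
    exact h1
  · simpa using key 0 1 (by norm_num) (by norm_num) (by norm_num)
  · simpa [sub_eq_add_neg] using key 0 (-1) (by norm_num) (by norm_num) (by norm_num)
  · simpa [sub_eq_add_neg] using key 1 (-1) (by norm_num) (by norm_num) (by norm_num)
  · simpa [sub_eq_add_neg] using key (-1) 1 (by norm_num) (by norm_num) (by norm_num)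

theorem AW_con_mem {W : Set V} {u v : V} (h : Con W u v) : v ∈ W := by
  obtain ⟨h1, h2⟩ := h
  cases h2 with
  | refl => exact h1
  | tail _ h3 => exact h3.2

/-- an exterior neighbour of a site of the square is near its arc -/
theorem AW_near (hGP1 : GP1_stmt) (n : ℕ) (D : Dom) (hn : 1 ≤ n) (hD : IsSq D n) {w v : V}
    (hw : w ∈ D.U) (hv : v ∉ D.U) (hwv : TAdj w v) :
    ∃ w' ∈ arc (D.sec v), ‖ps v - n * w'‖ ≤ 4 := by
  obtain ⟨x, h1, h2⟩ := hwv.exists_dart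
  have hFU : D.FU x.1 := ⟨x.2, by rw [h1]; exact hw⟩
  have h3 := (hGP1 n D hn hD).2.1 x.1 hFU (x.2 + 1) (by rw [h2]; exact hv)
  rw [h2] at h3
  exact h3

theorem AW (hPI : PI_stmt) (hCN : CN_stmt) (hWPW : WPW_stmt) (hGP1 : GP1_stmt) : AW_stmt := by
  intro n D hn hD j x y R hx hy hR hr
  obtain ⟨π, hπU, hπc, hπx, hπy, hπd⟩ := hPI n D hn hD x y hx hy
  have h1 := hCN D π x y j hπU hπc hπx hπy
  have h2 : D.Mx j π ≤ prob D.U (ArmW D j π) := by
    apply hWPW D j π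
    intro f d hf hfd hsec
    obtain ⟨w, hw, hwd⟩ := (hGP1 n D hn hD).2.1 f hf.1 d hfd
    rw [hsec] at hw
    have h3 := hR w hw
    have h4 := hπd f hf d
    have h5 : ‖pd x - n * w‖ ≤ ‖ps (S f d) - pd x‖ + ‖ps (S f d) - n * w‖ := by
      have e : pd x - n * w = -(ps (S f d) - pd x) + (ps (S f d) - n * w) := by ring
      rw [e]
      refine (norm_add_le _ _).trans ?_
      rw [norm_neg]
    linarith
  refine h1.trans (h2.trans (AW_mono D.U _ _ ?_))
  rintro s hs ⟨u, w, hcon, ⟨f, d, hf, hfd⟩, v, hvU, hwv, hsec⟩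
  refine ⟨u, w, hcon, ?_, ?_⟩
  · rw [← hfd]
    exact hπd f hf d
  · have hwU : w ∈ D.U := hs (AW_con_mem hcon)
    obtain ⟨w', hw', hwd⟩ := AW_near hGP1 n D hn hD hwU hvU hwv
    rw [hsec] at hw'
    have h3 := hR w' hw'
    have h4 := AW_adj hwv
    have h5 : ‖pd x - n * w'‖ ≤ ‖ps w - pd x‖ + ‖ps w - ps v‖ + ‖ps v - n * w'‖ := by
      have e : pd x - n * w' = -(ps w - pd x) + (ps w - ps v) + (ps v - n * w') := by ring
      rw [e]
      refine (norm_add₃_le).trans ?_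
      rw [norm_neg]
    linarith

end Pool.Agent.helper82.SC
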