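import Pool.Agent.helper83.SC.Stmt

/-!
Module UC: a Fubini estimate for the volume of a set with small slices.
-/

open scoped Pointwise ContDiff
open MeasureTheory Set Filter Topology

namespace Pool.Agent.helper83.SC

/-- Coordinates are bounded by the norm. -/
theorem UC_coord_le {m : ℕ} (p : E m) (i : Fin m) : |p i| ≤ ‖p‖ := by
  have := EuclideanSpace.norm_eq p
  rw [← Real.norm_eq_abs, this]
  apply Real.le_sqrt_of_sq_le
  exact Finset.single_le_sum (f := fun i => ‖p i‖ ^ 2) (fun j _ => sq_nonneg _) (Finset.mem_univ i)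

theorem volume_le_of_slices_of : volume_le_of_slices_stmt := by
  intro m S hS T R ρ hR hρ h1 h2
  classical
  -- transport to the product space
  set S1 : Set (Fin m → ℝ) := WithLp.toLp 2 ⁻¹' S with hS1
  have hmeas : MeasurableSet S := hS.measurableSet
  have hvol1 : volume S = volume S1 :=
    ((PiLp.volume_preserving_toLp (Fin m)).measure_preimage hmeas.nullMeasurableSet).symm
  have hS1m : MeasurableSet S1 :=
    (PiLp.volume_preserving_toLp (Fin m)).measurable hmeas
  have hvp := volume_preserving_piEquivPiSubtypeProd (fun _ : Fin m => ℝ) (fun i => i ∉ T)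
  set Φ := MeasurableEquiv.piEquivPiSubtypeProd (fun _ : Fin m => ℝ) (fun i => i ∉ T) with hΦ
  set S2 : Set (({i : Fin m // i ∉ T} → ℝ) × ({i : Fin m // ¬ i ∉ T} → ℝ)) := Φ.symm ⁻¹' S1
    with hS2
  have hS2m : MeasurableSet S2 := Φ.symm.measurable hS1m
  have hvol2 : volume S1 = volume S2 :=
    (hvp.symm.measure_preimage hS1m.nullMeasurableSet).symm
  have hmemS2 : ∀ a b, (a, b) ∈ S2 ↔ WithLp.toLp 2 (Φ.symm (a, b)) ∈ S := fun a b => Iff.rfl
  have hΦ1 : ∀ (a : {i : Fin m // i ∉ T} → ℝ) (b : {i : Fin m // ¬ i ∉ T} → ℝ) (i : Fin m)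
      (hi : i ∉ T), Φ.symm (a, b) i = a ⟨i, hi⟩ := by
    intro a b i hi
    simp [hΦ, MeasurableEquiv.piEquivPiSubtypeProd, Equiv.piEquivPiSubtypeProd, hi]
  have hΦ2 : ∀ (a : {i : Fin m // i ∉ T} → ℝ) (b : {i : Fin m // ¬ i ∉ T} → ℝ) (i : Fin m)
      (hi : ¬ i ∉ T), Φ.symm (a, b) i = b ⟨i, hi⟩ := by
    intro a b i hi
    have hi' : i ∈ T := not_not.mp hi
    simp [hΦ, MeasurableEquiv.piEquivPiSubtypeProd, Equiv.piEquivPiSubtypeProd, hi']
  rw [hvol1, hvol2]
  have hprod : (volume : Measure (({i : Fin m // i ∉ T} → ℝ) × ({i : Fin m // ¬ i ∉ T} → ℝ)))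
      = (volume : Measure ({i : Fin m // i ∉ T} → ℝ)).prod volume := rfl
  rw [hprod, Measure.prod_apply hS2m]
  -- bound of the slices
  have hslice : ∀ a : {i : Fin m // i ∉ T} → ℝ,
      volume (Prod.mk a ⁻¹' S2) ≤ (Metric.closedBall (0 : {i : Fin m // i ∉ T} → ℝ) R).indicator
        (fun _ => ENNReal.ofReal ((2 * ρ) ^ T.card)) a := by
    intro a
    by_cases hne : (Prod.mk a ⁻¹' S2).Nonempty
    · obtain ⟨b, hb⟩ := hne
      have hb' : WithLp.toLp 2 (Φ.symm (a, b)) ∈ S := hb
      have ha : a ∈ Metric.closedBall (0 : {i : Fin m // i ∉ T} → ℝ) R := by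
        rw [mem_closedBall_zero_iff, pi_norm_le_iff_of_nonneg hR]
        rintro ⟨i, hi⟩
        have h3 := UC_coord_le (WithLp.toLp 2 (Φ.symm (a, b)) : E m) i
        have h4 : (WithLp.toLp 2 (Φ.symm (a, b)) : E m) i = a ⟨i, hi⟩ := hΦ1 a b i hi
        rw [h4] at h3
        exact h3.trans (h1 _ hb')
      rw [indicator_of_mem ha]
      have hsub : Prod.mk a ⁻¹' S2 ⊆ Metric.closedBall b ρ := by
        intro b' hb1
        have hb1' : WithLp.toLp 2 (Φ.symm (a, b')) ∈ S := hb1
        rw [Metric.mem_closedBall, dist_eq_norm, pi_norm_le_iff_of_nonneg hρ]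
        rintro ⟨i, hi⟩
        have h5 := h2 _ hb1' _ hb' (by
          intro j hj
          change Φ.symm (a, b') j = Φ.symm (a, b) j
          rw [hΦ1 a b' j hj, hΦ1 a b j hj])
        have h3 := UC_coord_le ((WithLp.toLp 2 (Φ.symm (a, b')) : E m)
          - WithLp.toLp 2 (Φ.symm (a, b))) i
        have h4 : ((WithLp.toLp 2 (Φ.symm (a, b')) : E m)
          - WithLp.toLp 2 (Φ.symm (a, b))) i = b' ⟨i, hi⟩ - b ⟨i, hi⟩ := by
          change Φ.symm (a, b') i - Φ.symm (a, b) i = _
          rw [hΦ2 a b' i hi, hΦ2 a b i hi]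
        rw [h4] at h3
        exact h3.trans h5
      refine (measure_mono hsub).trans ?_
      rw [Real.volume_pi_closedBall b hρ]
      have hcard : Fintype.card {i : Fin m // ¬ i ∉ T} = T.card := by
        rw [Fintype.card_subtype]
        congr 1
        ext i
        simp
      rw [hcard]
    · rw [not_nonempty_iff_eq_empty] at hne
      rw [hne, measure_empty]
      exact zero_le
  refine (lintegral_mono hslice).trans ?_
  rw [lintegral_indicator Metric.isClosed_closedBall.measurableSet, lintegral_const,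
    Measure.restrict_apply MeasurableSet.univ, univ_inter, Real.volume_pi_closedBall 0 hR]
  have hcard2 : Fintype.card {i : Fin m // i ∉ T} = m - T.card := by
    rw [Fintype.card_subtype_compl, Fintype.card_fin, Fintype.card_coe]
  rw [hcard2, ← ENNReal.ofReal_mul (by positivity), mul_comm]

end Pool.Agent.helper83.SC
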