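import Pool.Agent.helper83.SC.Stmt

/-!
Module UF: the mixed Monge-Ampere measure does not charge one piece.
-/

open scoped Pointwise ContDiff
open MeasureTheory Set Filter Topology

namespace Pool.Agent.helper83.SC

theorem UF_cv_sum {m : ℕ} {ι : Type} (s : Finset ι) {F : ι → E m → ℝ} (hF : ∀ i, CV (F i)) :
    CV (fun x => ∑ i ∈ s, F i x) := by
  classical
  induction s using Finset.induction_on with
  | empty =>
    simp only [Finset.sum_empty]
    exact convexOn_const 0 convex_univ
  | insert a s ha ih =>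
    have := (hF a).add ih
    refine this.congr ?_
    intro x _
    simp [Finset.sum_insert ha]

theorem UF_cv_smul {m : ℕ} {f : E m → ℝ} (hf : CV f) {c : ℝ} (hc : 0 ≤ c) :
    CV (fun x => c * f x) := by
  have := hf.smul hc
  refine this.congr ?_
  intro x _
  rfl

theorem null_piece_of (hUB : slice_small_stmt) (hUC : volume_le_of_slices_stmt)
    (hUD : subgr_compact_stmt) (hUD' : subgr_bdd_stmt) (hUE : exists_test_subgr_stmt)
    (hPC : piece_closed_stmt) (hmul : B_mul_stmt) (hle : B_le_A_stmt) : null_piece_stmt := by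
  classical
  intro m F hF ν _ hν I T N hIT
  set f : E m → ℝ := fun x => ∑ i ∈ I, F i x with hf_def
  set g : E m → ℝ := fun x => ∑ i ∈ Iᶜ, F i x with hg_def
  have hf : CV f := UF_cv_sum I hF
  have hg : CV g := UF_cv_sum Iᶜ hF
  apply measure_null_of_locally_null
  intro x _
  set r : ℝ := 1 / (2 * ((N : ℝ) + 1)) with hr_def
  have hr : 0 < r := by positivity
  set Z : Set (E m) := piece f T N ∩ Metric.closedBall x r with hZ_def
  refine ⟨Z, inter_mem self_mem_nhdsWithin
    (mem_nhdsWithin_of_mem_nhds (Metric.closedBall_mem_nhds x hr)), ?_⟩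
  have hZc : IsCompact Z := (isCompact_closedBall x r).inter_left (hPC hf T N)
  obtain ⟨C, hC, hslice⟩ := hUB hf hg T N (‖x‖ + r)
  obtain ⟨C1, hC1, hbdd⟩ := hUD' hf hg (‖x‖ + r)
  have hZnorm : ∀ y ∈ Z, ‖y‖ ≤ ‖x‖ + r := by
    intro y hy
    have h1 := mem_closedBall_iff_norm.mp hy.2
    calc ‖y‖ = ‖x + (y - x)‖ := by congr 1; abel
      _ ≤ ‖x‖ + ‖y - x‖ := norm_add_le _ _
      _ ≤ ‖x‖ + r := by linarith
  have hZdist : ∀ y ∈ Z, ∀ z ∈ Z, ‖y - z‖ ≤ 1 / ((N : ℝ) + 1) := by
    intro y hy z hz
    have h1 := mem_closedBall_iff_norm.mp hy.2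
    have h2 := mem_closedBall_iff_norm.mp hz.2
    have h3 : ‖y - z‖ ≤ ‖y - x‖ + ‖z - x‖ := by
      have : y - z = (y - x) - (z - x) := by abel
      rw [this]
      exact norm_sub_le _ _
    have h4 : r + r = 1 / ((N : ℝ) + 1) := by
      rw [hr_def]
      field_simp
      norm_num
    linarith
  set K : ℝ := (2 * C1) ^ (m - T.card) * (2 * C) ^ T.card with hK_def
  have hK : 0 ≤ K := by positivity
  have hIcard : I.card ≤ m := by simpa using Finset.card_le_univ I
  -- the key estimate
  have key : ∀ t : ℝ, 0 < t → t ≤ 1 → (ν Z).toReal ≤ (K + 1) * t := by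
    intro t ht ht1
    have hcv : CV (fun y => f y + t * g y) := hf.add (UF_cv_smul hg ht.le)
    have hSc : IsCompact (subgr (fun y => f y + t * g y) Z) := hUD hcv hZc
    have hvol := hUC hSc T (R := C1) (ρ := C * t) hC1 (by positivity)
      (by
        rintro p ⟨y, hy, hp⟩
        exact hbdd t ht.le ht1 p y (hZnorm y hy) hp)
      (by
        rintro p ⟨y, hy, hp⟩ q ⟨z, hz, hq⟩ hpq
        exact hslice t ht ht1 y z p q hy.1 hz.1 (hZnorm y hy) (hZnorm z hz) (hZdist y hy z hz)
          hp hq hpq)
    have hvol' : (volume (subgr (fun y => f y + t * g y) Z)).toReal ≤ K * t ^ T.card := by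
      refine ENNReal.toReal_le_of_le_ofReal (by positivity) (hvol.trans_eq ?_)
      congr 1
      rw [hK_def, ← mul_assoc, mul_pow (2 * C) t]
      ring
    obtain ⟨φ, hφ, hφ1, hA⟩ := hUE hcv hZc (ε := t ^ T.card) (by positivity)
    have h1 : (ν Z).toReal ≤ ∫ y, φ y ∂ν := by
      have hint : Integrable φ ν := hφ.1.continuous.integrable_of_hasCompactSupport hφ.2.1
      have h2 : ∫ y, Z.indicator (fun _ => (1 : ℝ)) y ∂ν ≤ ∫ y, φ y ∂ν := by
        refine integral_mono ((integrable_const 1).indicator hZc.measurableSet) hint ?_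
        intro y
        by_cases hy : y ∈ Z
        · simpa [hy] using hφ1 y hy
        · simpa [hy] using hφ.2.2 y
      rwa [integral_indicator_const _ hZc.measurableSet, smul_eq_mul, mul_one] at h2
    rw [hν φ hφ] at h1
    -- scaling
    have h3 := hmul hφ hF (c := fun j => if j ∈ I then 1 else t) (by
      intro j
      by_cases hj : j ∈ I
      · simp [hj]
      · simp [hj, ht.le])
    have h4 : (∏ j : Fin m, (if j ∈ I then (1 : ℝ) else t)) = t ^ (m - I.card) := by
      rw [Finset.prod_ite]
      simp only [Finset.prod_const_one, one_mul, Finset.prod_const]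
      congr 1
      rw [Finset.filter_not, Finset.filter_mem_eq_inter, Finset.univ_inter, Finset.card_sdiff,
        Finset.inter_univ, Finset.card_univ, Fintype.card_fin]
    have h5 := hle hφ (F := fun j y => (if j ∈ I then (1 : ℝ) else t) * F j y) (by
      intro j
      apply UF_cv_smul (hF j)
      by_cases hj : j ∈ I
      · simp [hj]
      · simp [hj, ht.le])
    have h6 : (fun y => ∑ j : Fin m, (if j ∈ I then (1 : ℝ) else t) * F j y)
        = fun y => f y + t * g y := by
      funext y
      rw [hf_def, hg_def]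
      simp only
      rw [Finset.mul_sum, ← Finset.sum_add_sum_compl I]
      congr 1
      · apply Finset.sum_congr rfl
        intro j hj
        simp [hj]
      · apply Finset.sum_congr rfl
        intro j hj
        simp [Finset.mem_compl.mp hj]
    rw [h6, h3, h4] at h5
    have hb : 0 ≤ B φ F := le_trans ENNReal.toReal_nonneg h1
    have h7 : t ^ (m - I.card) * B φ F ≤ (K + 1) * t ^ T.card := by
      have h8 : (1 : ℝ) ≤ (m.factorial : ℝ) := by
        exact_mod_cast Nat.succ_le_of_lt (Nat.factorial_pos m)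
      have h9 : 0 ≤ t ^ (m - I.card) * B φ F := by positivity
      calc t ^ (m - I.card) * B φ F
          ≤ (m.factorial : ℝ) * (t ^ (m - I.card) * B φ F) := le_mul_of_one_le_left h9 h8
        _ ≤ A φ (fun y => f y + t * g y) := h5
        _ ≤ (volume (subgr (fun y => f y + t * g y) Z)).toReal + t ^ T.card := hA
        _ ≤ (K + 1) * t ^ T.card := by linarith
    have h10 : t ^ T.card ≤ t ^ (m - I.card) * t := by
      rw [← pow_succ]
      apply pow_le_pow_of_le_one ht.le ht1
      omega
    have hpos : 0 < t ^ (m - I.card) := by positivity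
    have h11 : t ^ (m - I.card) * B φ F ≤ t ^ (m - I.card) * ((K + 1) * t) := by
      calc t ^ (m - I.card) * B φ F ≤ (K + 1) * t ^ T.card := h7
        _ ≤ (K + 1) * (t ^ (m - I.card) * t) := mul_le_mul_of_nonneg_left h10 (by positivity)
        _ = t ^ (m - I.card) * ((K + 1) * t) := by ring
    exact h1.trans (le_of_mul_le_mul_left h11 hpos)
  -- conclusion
  have hz : (ν Z).toReal ≤ 0 := by
    have hlim : Tendsto (fun n : ℕ => (K + 1) * (1 / ((n : ℝ) + 1))) atTop (𝓝 ((K + 1) * 0)) :=
      tendsto_one_div_add_atTop_nhds_zero_nat.const_mul (K + 1)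
    rw [mul_zero] at hlim
    refine ge_of_tendsto' hlim ?_
    intro n
    apply key
    · positivity
    · rw [div_le_one (by positivity)]
      have : (0 : ℝ) ≤ n := Nat.cast_nonneg n
      linarith
  have hz' : (ν Z).toReal = 0 := le_antisymm hz ENNReal.toReal_nonneg
  exact (ENNReal.toReal_eq_zero_iff _).mp hz' |>.resolve_right (measure_ne_top ν Z)

end Pool.Agent.helper83.SC
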